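import Pool.Agent.Q62.CC.Stm

set_option autoImplicit false

/-!
Project CC, job CC-31: measurability of `f ∘ √`.
-/

open MeasureTheory Set

namespace Pool.Agent.Q94.CC

open Pool.Agent.Q62.CC

/-- **SQM** -/
theorem t_SQM : S_SQM := by
  intro a b ha hab f hf
  have hms : Measurable Real.sqrt := Real.continuous_sqrt.measurable
  have hq : Measure.QuasiMeasurePreserving Real.sqrt (volume.restrict (Icc (a ^ 2) (b ^ 2)))
      (volume.restrict (Icc a b)) := by
    refine ⟨hms, Measure.AbsolutelyContinuous.mk fun N hN h0 => ?_⟩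
    rw [Measure.restrict_apply hN] at h0
    rw [Measure.map_apply hms hN, Measure.restrict_apply (hms hN)]
    have h1 : volume ((fun r : ℝ => r ^ 2) '' (N ∩ Icc a b)) = 0 :=
      addHaar_image_eq_zero_of_differentiableOn_of_addHaar_eq_zero volume
        (differentiable_pow 2).differentiableOn h0
    refine measure_mono_null ?_ h1
    rintro s ⟨hs1, hs2⟩
    have hs0 : 0 ≤ s := (sq_nonneg a).trans hs2.1
    refine ⟨√s, ⟨hs1, ?_, ?_⟩, Real.sq_sqrt hs0⟩
    · exact Real.le_sqrt_of_sq_le hs2.1
    · rw [Real.sqrt_le_left (by linarith)]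
      exact hs2.2
  exact (hf.comp_quasiMeasurePreserving hq).aemeasurable

end Pool.Agent.Q94.CC
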